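import Pool.Agent.H2.ASY.LAT
import Pool.Agent.H2.ASY.LTR
import Pool.Agent.H2.ASY.REG
import Pool.Agent.H22.ASY.CUS
import Pool.Agent.H22.ASY.GGB
import Pool.Agent.H25.ASY.MOB
import Pool.Agent.H3.ASY.EUL
import Pool.Agent.H36.ASY.SCA
import Pool.Agent.H36.ASY.SUM
import Pool.Agent.H37.ASY.EXC
import Pool.Agent.H37.ASY.FAC
import Pool.Agent.H37.ASY.GCM
import Pool.Agent.H45.ASY.MUL
import Pool.Agent.H48.ASY.CNT
import Pool.Agent.H48.ASY.SIV
import Pool.Agent.H54.ASY.CUB
import Pool.Agent.H63.ASY.TRN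
import Pool.Agent.H70.ASY.SQP
import Pool.Agent.H72.ASY.MAG
import Pool.Agent.H72.ASY.NZX
import Pool.Agent.H78.ASY.SUT
import Pool.Agent.H78.ASY.TAI
import Pool.Agent.H85.ASY.CUT
import Pool.Agent.H86.ASY.KAP
import Pool.Agent.H99.ASY.HHM

/-!
# ASY: assembly, everything except the heights `≥ X ^ (1 / 3 + 1 / 10000)`
-/

set_option autoImplicit false

namespace Pool.ASY

theorem all_EXC : S_EXC := exc_thm
theorem all_MUL : S_MUL := mul_thm
theorem all_SUM : S_SUM := sum_thm all_EXC all_MUL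
theorem all_SUT : S_SUT := sut_thm all_MUL all_EXC
theorem all_TAI : S_TAI := tai_thm all_SUM
theorem all_SQP : S_SQP := sqp_thm all_TAI all_EXC
theorem all_MOB : S_MOB := mob_thm all_EXC
theorem all_TRN : S_TRN := trn_thm all_MOB all_EXC all_SQP
theorem all_LTR : S_LTR := ltr_thm lat_thm reg_thm
theorem all_SCA : S_SCA := sca_thm
theorem all_CUS : S_CUS := cus_thm all_SCA
theorem all_CUB : S_CUB := cub_thm all_CUS
theorem all_CUT : S_CUT := cut_thm all_CUS
theorem all_KAP : S_KAP := kap_thm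
theorem all_SIV : S_SIV := siv_thm gcm_thm all_LTR all_SCA all_KAP all_CUS
theorem all_CNT : S_CNT := cnt_thm fac_thm all_SIV
theorem all_HHM : S_HHM := hhm_thm all_EXC
theorem all_EUL : S_EUL := eul_thm all_KAP all_HHM all_SUM all_EXC
theorem all_GGB : S_GGB := ggb_thm all_TAI all_CUS all_CUB all_KAP all_EXC
theorem all_GGT : S_GGT := ggt_thm all_SUT all_CUT all_KAP all_EXC all_GGB all_EUL
theorem all_MAG : S_MAG := mag_thm all_CNT all_SCA all_GGB all_EXC
theorem all_NZX : S_NZX := nzx_thm all_TRN all_MAG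

end Pool.ASY
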