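import Pool.Agent.H21.ASY.All
import Pool.Agent.H22.ASY.FIN
import Pool.Agent.H86.ASY.BET
import Pool.Agent.H47.MED.All
import Pool.Agent.H10.RIC.All
import Pool.Agent.H10.ABY.All
import Pool.Agent.H10.ABY.FIN
import Pool.Agent.H59.FEX.LO2

/-!
# ASY: final form.  The distribution of the abc triples ordered by their radical
-/

set_option autoImplicit false

namespace Pool.ASY

open Finset Pool.Agent.H98.ABCR Pool.SHA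

theorem all_FIN : S_FIN := fin_thm all_NZX all_GGB Pool.MED.all_TOF

/-- the radical of `a b (a + b)` -/
def Rd (t : ℕ × ℕ) : ℕ := ∏ p ∈ (t.1 * t.2 * (t.1 + t.2)).primeFactors, p

/-- the constant -/
noncomputable def C0 : ℝ := Real.Gamma (1 / 3) ^ 2 / (2 * Real.Gamma (2 / 3)) *
  ∏' p : Nat.Primes, (1 - 1 / (p : ℝ)) *
    (1 + 1 / (p : ℝ) + 3 * (p : ℝ) ^ (-(4 / 3) : ℝ) + 3 * (p : ℝ) ^ (-(5 / 3) : ℝ))

theorem two_le_Rd (t : ℕ × ℕ) (h1 : 0 < t.1) (h2 : 0 < t.2) : 2 ≤ Rd t := by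
  have hn : t.1 * t.2 * (t.1 + t.2) ≠ 0 := by positivity
  have h2d : 2 ∣ t.1 * t.2 * (t.1 + t.2) := by
    rcases Nat.even_or_odd t.1 with ha | ha
    · exact (ha.two_dvd.mul_right _).mul_right _
    · rcases Nat.even_or_odd t.2 with hb | hb
      · exact (hb.two_dvd.mul_left _).mul_right _
      · exact (ha.add_odd hb).two_dvd.mul_left _
  have hmem : 2 ∈ (t.1 * t.2 * (t.1 + t.2)).primeFactors :=
    Nat.mem_primeFactors.2 ⟨Nat.prime_two, h2d, hn⟩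
  have hpos : 0 < Rd t := Finset.prod_pos fun p hp => (Nat.prime_of_mem_primeFactors hp).pos
  exact Nat.le_of_dvd hpos (Finset.dvd_prod_of_mem (fun p => p) hmem)

theorem const_eq : AA * SS = C0 := by
  have h := all_EUL.2.1.tprod_eq
  rw [bet_thm, ← h]
  rfl

theorem const_pos : 0 < AA * SS := mul_pos all_CUS.2.1 all_EUL.2.2

/-- part 1: asymptotic formula, limit law, tail -/
theorem part1 :
    Multipliable (fun p : Nat.Primes => (1 - 1 / (p : ℝ)) *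
      (1 + 1 / (p : ℝ) + 3 * (p : ℝ) ^ (-(4 / 3) : ℝ) + 3 * (p : ℝ) ^ (-(5 / 3) : ℝ))) ∧
    0 < C0 ∧
    ∃ (G : ℝ → ℝ) (c C : ℝ), 0 < c ∧
      (∀ X : ℝ, 1 ≤ X → (Pool.VIO.Tri X).Finite ∧
        |((Pool.VIO.Tri X).ncard : ℝ) - C0 * X ^ (2 / 3 : ℝ)| ≤ C * X ^ (2 / 3 - c) ∧
        ∀ lam : ℝ, 0 < lam →
          |(({t | t ∈ Pool.VIO.Tri X ∧ ((t.1 + t.2 : ℕ) : ℝ) ≤ lam * X ^ (1 / 3 : ℝ)} :
            Set (ℕ × ℕ)).ncard : ℝ) - G lam * X ^ (2 / 3 : ℝ)| ≤ C * X ^ (2 / 3 - c)) ∧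
      ∀ θ : ℝ, 0 ≤ θ → θ < 1 → ∃ C' : ℝ, ∀ lam : ℝ, 0 < lam → |G lam - C0| ≤ C' * lam ^ (-θ) := by
  refine ⟨all_EUL.2.1.multipliable, const_eq ▸ const_pos, GG, ?_⟩
  obtain ⟨c, C, hc, hC, h⟩ := all_FIN
  refine ⟨c, C, hc, fun X hX => ?_, fun θ h0 h1 => ?_⟩
  · obtain ⟨h1, h2, h3⟩ := h X hX
    rw [const_eq] at h2
    exact ⟨h1, h2, h3⟩
  · obtain ⟨C', hC', h2⟩ := all_GGT θ h0 h1
    refine ⟨C', fun lam hl => ?_⟩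
    have := h2 lam hl
    rwa [const_eq] at this

/-- part 2: almost all triples satisfy `a + b ≤ rad ^ (1 / 3 + ε)` -/
theorem part2 : ∀ ε : ℝ, 0 < ε → ∃ c C : ℝ, 0 < c ∧ ∀ X : ℝ, 1 ≤ X →
    (({t | t ∈ Pool.VIO.Tri X ∧ (Rd t : ℝ) ^ (1 / 3 + ε) < ((t.1 + t.2 : ℕ) : ℝ)} :
      Set (ℕ × ℕ)).ncard : ℝ) ≤ C * X ^ (2 / 3 - c) := by
  intro ε hε
  obtain ⟨c0, C, hc0, h⟩ := Pool.MED.all_FIA ε hε
  refine ⟨c0, |C|, hc0, fun X hX => ?_⟩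
  rcases lt_or_ge X 2 with h2 | h2
  · have he : ({t | t ∈ Pool.VIO.Tri X ∧ (Rd t : ℝ) ^ (1 / 3 + ε) < ((t.1 + t.2 : ℕ) : ℝ)} :
        Set (ℕ × ℕ)) = ∅ := by
      ext t
      simp only [Set.mem_empty_iff_false, iff_false]
      rintro ⟨ht, -⟩
      have h3 := two_le_Rd t ht.1 ht.2.1
      have h4 : ((Rd t : ℕ) : ℝ) ≤ X := ht.2.2.2
      have h5 : (2 : ℝ) ≤ (Rd t : ℝ) := by exact_mod_cast h3
      linarith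
    rw [he, Set.ncard_empty, Nat.cast_zero]
    positivity
  · refine (h X h2).2.2.1.trans ?_
    exact mul_le_mul_of_nonneg_right (le_abs_self C) (by positivity)

/-- part 3: exceptions of large polynomial height -/
theorem part3 : ∀ ε : ℝ, 0 < ε → ∃ K : ℝ, ∀ κ : ℝ, ∃ C : ℝ, ∀ X : ℝ, 1 ≤ X →
    (({t | t ∈ Pool.VIO.Tri X ∧ (Rd t : ℝ) ^ K ≤ ((t.1 + t.2 : ℕ) : ℝ) ∧
      ((t.1 + t.2 : ℕ) : ℝ) ≤ (Rd t : ℝ) ^ κ} : Set (ℕ × ℕ)).ncard : ℝ) ≤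
      C * X ^ (2 / 5 + ε) := by
  intro ε hε
  obtain ⟨K, hK, h⟩ := Pool.RIC.all_WAA ε hε
  refine ⟨K, fun κ => ?_⟩
  obtain ⟨C, hC, h1⟩ := h (max κ 1) (le_max_right _ _)
  refine ⟨C, fun X hX => ?_⟩
  have hfin : ({t | t ∈ Pool.VIO.Tri X ∧ (Rd t : ℝ) ^ K ≤ ((t.1 + t.2 : ℕ) : ℝ) ∧
      ((t.1 + t.2 : ℕ) : ℝ) ≤ (Rd t : ℝ) ^ κ} : Set (ℕ × ℕ)).Finite := by
    obtain ⟨c, C, hc, hC, h⟩ := all_FIN
    exact (h X hX).1.subset fun t ht => ht.1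
  rw [Set.ncard_eq_toFinset_card _ hfin]
  refine h1 X hfin.toFinset hX fun v hv => ?_
  rw [Set.Finite.mem_toFinset] at hv
  obtain ⟨⟨a1, a2, a3, a4⟩, a5, a6⟩ := hv
  have hR2 : 2 ≤ Rd v := two_le_Rd v a1 a2
  have hRr : (2 : ℝ) ≤ (Rd v : ℝ) := by exact_mod_cast hR2
  have hR0 : (0 : ℝ) < (Rd v : ℝ) := by linarith
  have hRR : RR v = Rd v := rfl
  have hs : (0 : ℝ) < ((v.1 + v.2 : ℕ) : ℝ) := by
    have : 0 < v.1 + v.2 := by omega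
    exact_mod_cast this
  refine ⟨⟨a1, a2, a3⟩, a4, ?_, ?_⟩
  · rw [hRR]
    have := Real.log_le_log (Real.rpow_pos_of_pos hR0 K) a5
    rwa [Real.log_rpow hR0] at this
  · rw [hRR]
    have h6 : ((v.1 + v.2 : ℕ) : ℝ) ≤ (Rd v : ℝ) ^ (max κ 1) :=
      a6.trans (Real.rpow_le_rpow_of_exponent_le (by linarith) (le_max_left _ _))
    have := Real.log_le_log hs h6
    rwa [Real.log_rpow hR0] at this

/-- one of the three radicals is at most `Y` -/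
def TriY (X Y : ℝ) : Set (ℕ × ℕ) :=
  {t | t ∈ Pool.VIO.Tri X ∧ (((∏ p ∈ t.1.primeFactors, p : ℕ) : ℝ) ≤ Y ∨
    ((∏ p ∈ t.2.primeFactors, p : ℕ) : ℝ) ≤ Y ∨ ((∏ p ∈ (t.1 + t.2).primeFactors, p : ℕ) : ℝ) ≤ Y)}

/-- part 4: the two-parameter count -/
theorem part4 :
    (∀ ε : ℝ, 0 < ε → ∃ C : ℝ, ∀ X Y : ℝ, 1 ≤ X → 1 ≤ Y →
      ((TriY X Y).ncard : ℝ) ≤ C * X ^ (1 / 2 + ε) * Y ^ (1 / 2 : ℝ)) ∧
    ∃ c X₀ : ℝ, 0 < c ∧ ∀ X Y : ℝ, X₀ ≤ X → 1 ≤ Y → Y ≤ X ^ (1 / 3 : ℝ) →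
      c * (X * Y) ^ (1 / 2 : ℝ) ≤ ((TriY X Y).ncard : ℝ) := by
  have h := Pool.ABY.fin Pool.ABY.all_ALL Pool.FEX.lo2_thm
  refine ⟨fun ε hε => ?_, h.2⟩
  obtain ⟨C, hC⟩ := h.1 ε hε
  exact ⟨C, fun X Y hX hY => (hC X hX).2.2 Y hY⟩

end Pool.ASY
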