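import Pool.Agent.H21.ASY.Final
import Pool.Agent.H10.BL.Stmts
import Pool.Agent.H46.EXC.Stmts

/-!
# ASY: the triples with `a + b ≥ rad (a b (a + b))`
-/

set_option autoImplicit false

namespace Pool.ASY

open Finset Pool.Agent.H98.ABCR Pool.SHA

theorem tri_finite {X : ℝ} (hX : 1 ≤ X) : (Pool.VIO.Tri X).Finite := by
  obtain ⟨c, C, hc, hC, h⟩ := all_FIN
  exact (h X hX).1

/-- few triples violate `a + b < rad` -/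
theorem part3b (h35 : Pool.BL.S_B35) (hx : Pool.EXC.S_XFI) : ∀ ε : ℝ, 0 < ε → ∃ C : ℝ,
    ∀ X : ℝ, 1 ≤ X →
    (({t | t ∈ Pool.VIO.Tri X ∧ Rd t ≤ t.1 + t.2} : Set (ℕ × ℕ)).ncard : ℝ) ≤
      C * X ^ (3 / 5 + ε) := by
  intro ε hε
  obtain ⟨κ0, C0, h0⟩ := hx ε hε
  obtain ⟨C1, hC1, h1⟩ := h35 (max κ0 1) ε (le_max_right _ _) hε
  refine ⟨C1 + |C0|, fun X hX => ?_⟩
  obtain ⟨hfin, hcard⟩ := h0 X hX
  set A1 : Set (ℕ × ℕ) := {t | t ∈ Pool.VIO.Tri X ∧ Rd t ≤ t.1 + t.2 ∧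
    ((t.1 + t.2 : ℕ) : ℝ) ≤ (Rd t : ℝ) ^ (max κ0 1)} with hA1
  have hA1f : A1.Finite := (tri_finite hX).subset fun t ht => ht.1
  have hsub : {t | t ∈ Pool.VIO.Tri X ∧ Rd t ≤ t.1 + t.2} ⊆ A1 ∪ Pool.VIO.Exc κ0 X := by
    rintro t ⟨ht, h2⟩
    by_cases h3 : ((t.1 + t.2 : ℕ) : ℝ) ≤ (Rd t : ℝ) ^ (max κ0 1)
    · exact Or.inl ⟨ht, h2, h3⟩
    · refine Or.inr ⟨ht, ?_⟩
      push Not at h3
      refine lt_of_le_of_lt ?_ h3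
      have hR2 : 2 ≤ Rd t := two_le_Rd t ht.1 ht.2.1
      have hRr : (1 : ℝ) ≤ (Rd t : ℝ) := by exact_mod_cast (by omega : 1 ≤ Rd t)
      exact Real.rpow_le_rpow_of_exponent_le hRr (le_max_left _ _)
  have hc1 : (A1.ncard : ℝ) ≤ C1 * X ^ (3 / 5 + ε) := by
    rw [Set.ncard_eq_toFinset_card _ hA1f]
    refine h1 X hA1f.toFinset hX fun v hv => ?_
    rw [Set.Finite.mem_toFinset] at hv
    obtain ⟨⟨a1, a2, a3, a4⟩, a5, a6⟩ := hv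
    have hR2 : 2 ≤ Rd v := two_le_Rd v a1 a2
    have hRr : (2 : ℝ) ≤ (Rd v : ℝ) := by exact_mod_cast hR2
    have hR0 : (0 : ℝ) < (Rd v : ℝ) := by linarith
    have hRR : RR v = Rd v := rfl
    have hs : (0 : ℝ) < ((v.1 + v.2 : ℕ) : ℝ) := by
      have : 0 < v.1 + v.2 := by omega
      exact_mod_cast this
    refine ⟨⟨a1, a2, a3⟩, a4, a5, ?_⟩
    rw [hRR]
    have := Real.log_le_log hs a6
    rwa [Real.log_rpow hR0] at this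
  have hX0 : 0 < X := by linarith
  have h5 : ({t | t ∈ Pool.VIO.Tri X ∧ Rd t ≤ t.1 + t.2} : Set (ℕ × ℕ)).ncard ≤
      A1.ncard + (Pool.VIO.Exc κ0 X).ncard :=
    (Set.ncard_le_ncard hsub (hA1f.union hfin)).trans (Set.ncard_union_le _ _)
  calc (({t | t ∈ Pool.VIO.Tri X ∧ Rd t ≤ t.1 + t.2} : Set (ℕ × ℕ)).ncard : ℝ)
      ≤ (A1.ncard : ℝ) + ((Pool.VIO.Exc κ0 X).ncard : ℝ) := by exact_mod_cast h5
    _ ≤ C1 * X ^ (3 / 5 + ε) + |C0| * X ^ (3 / 5 + ε) := by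
        have h6 : X ^ (1 / 3 + ε) ≤ X ^ (3 / 5 + ε) :=
          Real.rpow_le_rpow_of_exponent_le hX (by linarith)
        have h7 : C0 * X ^ (1 / 3 + ε) ≤ |C0| * X ^ (3 / 5 + ε) :=
          mul_le_mul (le_abs_self _) h6 (Real.rpow_nonneg hX0.le _) (abs_nonneg _)
        linarith
    _ = (C1 + |C0|) * X ^ (3 / 5 + ε) := by ring

/-- by height -/
theorem part3c (hb : Pool.BL.S_BLT) : ∀ l ε : ℝ, 0 < l → l ≤ 1 → 0 < ε → ∃ C : ℝ,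
    ∀ N : ℝ, 1 ≤ N →
    (({t | 0 < t.1 ∧ 0 < t.2 ∧ Nat.Coprime t.1 t.2 ∧ ((t.1 + t.2 : ℕ) : ℝ) ≤ N ∧
      (Rd t : ℝ) < ((t.1 + t.2 : ℕ) : ℝ) ^ l} : Set (ℕ × ℕ)).ncard : ℝ) ≤
      C * N ^ (3 * l / 5 + ε) := by
  intro l ε hl hl1 hε
  obtain ⟨C, hC, h⟩ := hb l ε hl hl1 hε
  refine ⟨C, fun N hN => ?_⟩
  have hfin : ({t | 0 < t.1 ∧ 0 < t.2 ∧ Nat.Coprime t.1 t.2 ∧ ((t.1 + t.2 : ℕ) : ℝ) ≤ N ∧
      (Rd t : ℝ) < ((t.1 + t.2 : ℕ) : ℝ) ^ l} : Set (ℕ × ℕ)).Finite := by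
    refine (Finset.finite_toSet (Finset.range (⌊N⌋₊ + 1) ×ˢ Finset.range (⌊N⌋₊ + 1))).subset ?_
    rintro t ⟨_, _, _, h4, _⟩
    have h5 : t.1 + t.2 ≤ ⌊N⌋₊ := Nat.le_floor h4
    rw [Finset.coe_product]
    exact ⟨by simp; omega, by simp; omega⟩
  rw [Set.ncard_eq_toFinset_card _ hfin]
  refine h N hfin.toFinset hN fun v hv => ?_
  rw [Set.Finite.mem_toFinset] at hv
  obtain ⟨a1, a2, a3, a4, a5⟩ := hv
  exact ⟨⟨a1, a2, a3⟩, a4, a5.le⟩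

end Pool.ASY
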