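import Pool.Agent.H47.MED.Stmts

/-!
# ASY: the number of abc triples of radical at most `X`, with a power saving

Definitions and the statements of the modules.  Proofs in words: `/team-store/ASY_PLAN.md` and the
docstrings.  Module `XXX` is a theorem `xxx_thm (h1 : S_AAA) ... : S_XXX` in
`Pool/Agent/H<k>/ASY/XXX.lean` (import this file, namespace `Pool.ASY`).
-/

set_option autoImplicit false

namespace Pool.ASY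

open Finset MeasureTheory Pool.Agent.H98.ABCR Pool.SHA
open scoped ArithmeticFunction.Moebius

/-! ## Definitions -/

/-- the excess `n / rad n` -/
def exc (n : ℕ) : ℕ := n / rad n

/-- squarefull numbers (`1` is one of them) -/
def Sqf (d : ℕ) : Prop := 0 < d ∧ ∀ p : ℕ, p.Prime → p ∣ d → p ^ 2 ∣ d

noncomputable instance decSqf : DecidablePred Sqf := Classical.decPred _

/-- the squarefull numbers `≤ Y` -/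
noncomputable def sf (Y : ℝ) : Finset ℕ := (Icc 1 ⌊Y⌋₊).filter Sqf

/-- coprime pairs of positive integers of sum `≤ Z` -/
noncomputable def box (Z : ℝ) : Finset (ℕ × ℕ) :=
  (Icc 1 ⌊Z⌋₊ ×ˢ Icc 1 ⌊Z⌋₊).filter (fun v => v.1.Coprime v.2 ∧ ((v.1 + v.2 : ℕ) : ℝ) ≤ Z)

/-- coprime pairs with `a + b ≤ Z`, `d ∣ a b (a + b) ≤ T` -/
noncomputable def MM (T Z : ℝ) (d : ℕ) : ℕ :=
  ((box Z).filter (fun v => d ∣ nn v ∧ ((nn v : ℕ) : ℝ) ≤ T)).card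

/-- coprime pairs with `a + b ≤ Z`, `k1 ∣ a`, `k2 ∣ b`, `k3 ∣ a + b`, `a b (a + b) ≤ T` -/
noncomputable def MK (T Z : ℝ) (k1 k2 k3 : ℕ) : ℕ :=
  ((box Z).filter (fun v => k1 ∣ v.1 ∧ k2 ∣ v.2 ∧ k3 ∣ v.1 + v.2 ∧ ((nn v : ℕ) : ℝ) ≤ T)).card

/-- the same count without coprimality -/
noncomputable def LC (T Z : ℝ) (k1 k2 k3 : ℕ) : ℕ :=
  ((Icc 1 ⌊Z⌋₊ ×ˢ Icc 1 ⌊Z⌋₊).filter (fun v => k1 ∣ v.1 ∧ k2 ∣ v.2 ∧ k3 ∣ v.1 + v.2 ∧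
    ((v.1 + v.2 : ℕ) : ℝ) ≤ Z ∧ ((nn v : ℕ) : ℝ) ≤ T)).card

/-- the region of the plane -/
def reg (T Z : ℝ) : Set (ℝ × ℝ) :=
  {x | 0 < x.1 ∧ 0 < x.2 ∧ x.1 + x.2 ≤ Z ∧ x.1 * x.2 * (x.1 + x.2) ≤ T}

/-- the region without bound for the height -/
def full (T : ℝ) : Set (ℝ × ℝ) := {x | 0 < x.1 ∧ 0 < x.2 ∧ x.1 * x.2 * (x.1 + x.2) ≤ T}

/-- area of `reg` -/
noncomputable def Ar (T Z : ℝ) : ℝ := (volume (reg T Z)).toReal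

/-- area of `full 1` -/
noncomputable def AA : ℝ := (volume (full 1)).toReal

/-- `∏ (1 - 1 / p ^ 2)` -/
noncomputable def kap0 : ℝ := ∏' p : Nat.Primes, (1 - 1 / ((p : ℕ) : ℝ) ^ 2)

/-- density of the coprime pairs `(a, b)` divisible by `(k1, k2, k3)`, `k1 k2 k3 = d` -/
noncomputable def kap (d : ℕ) : ℝ := kap0 / d * ∏ p ∈ d.primeFactors, (1 + 1 / (p : ℝ))⁻¹

/-- `μ * exc ^ (2 / 3)` -/
noncomputable def HH (d : ℕ) : ℝ := ∑ j ∈ d.divisors, (μ (d / j) : ℝ) * (exc j : ℝ) ^ (2 / 3 : ℝ)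

/-- `μ * Ar (exc ·) lam` -/
noncomputable def hA (lam : ℝ) (d : ℕ) : ℝ := ∑ j ∈ d.divisors, (μ (d / j) : ℝ) * Ar (exc j) lam

/-- terms of the singular series -/
noncomputable def cf (d : ℕ) : ℝ := if Sqf d then 3 ^ om d * kap d * HH d else 0

/-- terms of the distribution function of the height -/
noncomputable def cg (lam : ℝ) (d : ℕ) : ℝ := if Sqf d then 3 ^ om d * kap d * hA lam d else 0

/-- singular series -/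
noncomputable def SS : ℝ := ∑' d, cf d

/-- distribution function of the height divided by `X ^ (1 / 3)` -/
noncomputable def GG (lam : ℝ) : ℝ := ∑' d, cg lam d

/-- the summable majorant of everything -/
noncomputable def FF (d : ℕ) : ℝ :=
  if Sqf d then 6 ^ om d * (exc d : ℝ) ^ (2 / 3 + 1 / 24 : ℝ) * (d : ℝ) ^ (-(1 - 1 / 24) : ℝ) else 0

/-- the local factor of the constant -/
noncomputable def Lp (p : ℝ) : ℝ :=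
  (1 - 1 / p) * (1 + 1 / p + 3 * p ^ (-(4 / 3) : ℝ) + 3 * p ^ (-(5 / 3) : ℝ))

/-! ## Part A: arithmetic -/

/-- EXC: elementary facts on the excess -/
def S_EXC : Prop :=
  (∀ n : ℕ, 0 < n → n = rad n * exc n ∧ 0 < exc n) ∧
  (∀ (n : ℕ) (X : ℝ), 0 < n → ((rad n : ℝ) ≤ X ↔ (n : ℝ) ≤ X * exc n)) ∧
  (∀ m n : ℕ, m.Coprime n → exc (m * n) = exc m * exc n) ∧
  (∀ p e : ℕ, p.Prime → exc (p ^ (e + 1)) = p ^ e) ∧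
  (∀ j d : ℕ, 0 < d → j ∣ d → exc j ≤ exc d) ∧
  (∀ d : ℕ, 0 < d → ∑ j ∈ d.divisors, |((μ (d / j) : ℤ) : ℝ)| = 2 ^ om d)

/-- MOB: Moebius inversion of a function of the excess lives on squarefull numbers.  (Inversion:
`∑_{d ∣ n} (μ * G) (d) = G (n)`; if `p` divides `d` exactly once then `j ↦ p j` pairs the divisors
`j` of `d / p` with those divisible by `p`: `exc (p j) = exc j`, the signs are opposite.) -/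
def S_MOB : Prop := ∀ (g : ℕ → ℝ) (n : ℕ), 0 < n →
  g (exc n) = ∑ d ∈ n.divisors.filter Sqf, ∑ j ∈ d.divisors, (μ (d / j) : ℝ) * g (exc j)

/-- HHM: `HH` is multiplicative, with the local values; `0 ≤ HH d ≤ exc d ^ (2 / 3)` -/
def S_HHM : Prop :=
  HH 1 = 1 ∧ (∀ m n : ℕ, m.Coprime n → HH (m * n) = HH m * HH n) ∧
  (∀ p : ℕ, p.Prime → HH p = 0) ∧
  (∀ p e : ℕ, p.Prime →
    HH (p ^ (e + 2)) = (p : ℝ) ^ (2 * (e + 1) / 3 : ℝ) - (p : ℝ) ^ (2 * e / 3 : ℝ)) ∧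
  (∀ d : ℕ, 0 < d → 0 ≤ HH d ∧ HH d ≤ (exc d : ℝ) ^ (2 / 3 : ℝ))

/-- MUL: a nonnegative multiplicative function with bounded local sums is summable.  (Partial sums
`∑_{n ≤ N} f n ≤ ∏_{p ≤ N} (1 + ∑_e f (p ^ (e + 1))) ≤ exp B`:
`EulerProduct.summable_and_hasSum_smoothNumbers_prod_primesBelow_tsum`, see H40/SHA/SRD.lean.) -/
def S_MUL : Prop := ∀ (f : ℕ → ℝ) (B : ℝ), (∀ n, 0 ≤ f n) → f 0 = 0 → f 1 = 1 →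
  (∀ m n : ℕ, m.Coprime n → f (m * n) = f m * f n) →
  (∀ p : ℕ, p.Prime → Summable fun e : ℕ => f (p ^ (e + 1))) →
  (∀ N : ℕ, ∑ p ∈ N.primesBelow, ∑' e : ℕ, f (p ^ (e + 1)) ≤ B) → Summable f

/-- SUM: from MUL (`f = FF`): `FF (p ^ e) = 6 p ^ (-(2/3 + 1/24) - e / 4)` for `e ≥ 2`, `0` for
`e = 1`; the local sum is `≤ C p ^ (-29 / 24)` -/
def S_SUM : Prop := Summable FF

/-- TAI: consequences of SUM (`1 / d ≤ d ^ (-(1 - 1 / 24))`, for `d > Y` times `Y ^ (-1 / 24)`) -/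
def S_TAI : Prop := ∃ C : ℝ, 1 ≤ C ∧
  (∀ S : Finset ℕ, (∀ d ∈ S, Sqf d) →
    ∑ d ∈ S, 6 ^ om d * (exc d : ℝ) ^ (2 / 3 + 1 / 24 : ℝ) / d ≤ C) ∧
  (∀ (Y : ℝ) (S : Finset ℕ), 1 ≤ Y → (∀ d ∈ S, Sqf d ∧ Y < d) →
    ∑ d ∈ S, 6 ^ om d * (exc d : ℝ) ^ (2 / 3 + 1 / 24 : ℝ) / d ≤ C * Y ^ (-(1 / 24) : ℝ))

/-! ## Part B: truncation -/

/-- SQP: few pairs with a large squarefull divisor.  (One of the three coordinates, which are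
coprime, has a squarefull divisor `k > Y ^ (1 / 3)`; `≤ Z ^ 2 / k` pairs for each `k`; TAI.) -/
def S_SQP : Prop := ∃ C : ℝ, 1 ≤ C ∧ ∀ Z Y : ℝ, 1 ≤ Z → 1 ≤ Y →
  ∀ F : Finset (ℕ × ℕ), F ⊆ box Z → (∀ v ∈ F, ∃ d, Sqf d ∧ d ∣ nn v ∧ Y < d) →
    (F.card : ℝ) ≤ C * Z ^ 2 * Y ^ (-(1 / 72) : ℝ)

/-- TRN: truncated Moebius formula.  (Exact for the pairs all of whose squarefull divisors are
`≤ Y`: MOB with `g e = 1` if `nn v ≤ X e`, `0` otherwise; the others, counted by SQP, contribute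
`≤ 1 + τ (nn v) ^ 2` each, `τ n ≤ C n ^ (ε / 6)` : `Pool.Agent.H93.BT.divisor_bound`.) -/
def S_TRN : Prop := ∀ ε : ℝ, 0 < ε → ∃ C : ℝ, 1 ≤ C ∧ ∀ X Z Y : ℝ, 1 ≤ X → 1 ≤ Z → 1 ≤ Y →
  |(((box Z).filter (fun v => ((rad (nn v) : ℕ) : ℝ) ≤ X)).card : ℝ) -
    ∑ d ∈ sf Y, ∑ j ∈ d.divisors, (μ (d / j) : ℝ) * MM (X * exc j) Z d| ≤
    C * Z ^ (2 + ε) * Y ^ (-(1 / 72) : ℝ)

/-! ## Part C: lattice points -/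

/-- LAT: lattice points under the graph of a decreasing function.  (Row `a`: `β a / m + O (1)`, at
most `Z / k` rows; `k * ∑_i β (k i) ≤ ∫ β ≤ k * ∑_i β (k i) + k Z`.) -/
def S_LAT : Prop := ∀ (Z : ℝ) (β : ℝ → ℝ) (k m : ℕ) (r : ℕ → ℕ), 0 ≤ Z → 0 < k → 0 < m →
  AntitoneOn β (Set.Ioi 0) → (∀ u, 0 < u → 0 ≤ β u ∧ β u ≤ Z) → (∀ u, Z < u → β u = 0) →
  |(∑ a ∈ (Icc 1 ⌊Z⌋₊).filter (fun a => k ∣ a),
      (((Icc 1 ⌊β a⌋₊).filter (fun b => b ≡ r a [MOD m])).card : ℝ)) -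
    (∫ u in (0 : ℝ)..Z, β u) / (k * m)| ≤ 2 * Z

/-- REG: the region lies under the graph of a decreasing function
(`β u = max 0 (min (Z - u) ((-u + √(u ^ 2 + 4 T / u)) / 2))`) -/
def S_REG : Prop := ∀ T Z : ℝ, 0 ≤ T → 0 ≤ Z → ∃ β : ℝ → ℝ,
  AntitoneOn β (Set.Ioi 0) ∧ (∀ u, 0 < u → 0 ≤ β u ∧ β u ≤ Z) ∧ (∀ u, Z < u → β u = 0) ∧
  (∀ u w, 0 < u → 0 < w → ((u, w) ∈ reg T Z ↔ w ≤ β u)) ∧ Ar T Z = ∫ u in (0 : ℝ)..Z, β u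

/-- LTR: from LAT (`k = k1`, `m = k2 k3`; `b ≡ 0` modulo `k2` and `b ≡ -a` modulo `k3` is one
residue class) and REG -/
def S_LTR : Prop := ∀ (T Z : ℝ) (k1 k2 k3 : ℕ), 0 ≤ T → 0 ≤ Z → 0 < k1 → 0 < k2 → 0 < k3 →
  k1.Coprime k2 → k1.Coprime k3 → k2.Coprime k3 →
  |(LC T Z k1 k2 k3 : ℝ) - Ar T Z / (k1 * k2 * k3)| ≤ 2 * Z

/-- SCA: scaling of areas -/
def S_SCA : Prop :=
  (∀ T Z e : ℝ, 0 < e → Ar (T / e ^ 3) (Z / e) = Ar T Z / e ^ 2) ∧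
  (∀ T : ℝ, 0 < T → volume (full T) = ENNReal.ofReal (T ^ (2 / 3 : ℝ)) * volume (full 1))

/-- CUS: the cusps.  (`x1 + x2 > Z`: the larger coordinate `u` is `> Z / 2`, the other one `≤ T / u ^ 2`:
area `≤ 2 ∫_{Z/2}^∞ T / u ^ 2`.  From SCA, and `reg T Z ⊆ [0, Z] ^ 2` for the finiteness.) -/
def S_CUS : Prop := volume (full 1) ≠ ⊤ ∧ 0 < AA ∧
  (∀ T Z : ℝ, Ar T Z ≤ Z ^ 2) ∧ (∀ T Z : ℝ, 0 ≤ Ar T Z) ∧
  ∀ T Z : ℝ, 0 < T → 0 < Z →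
    Ar T Z ≤ AA * T ^ (2 / 3 : ℝ) ∧ AA * T ^ (2 / 3 : ℝ) - Ar T Z ≤ 4 * T / Z

/-- CUB: interpolation, `min (x, y) ≤ x ^ (1 / 8) y ^ (7 / 8)` -/
def S_CUB : Prop := ∃ C : ℝ, 1 ≤ C ∧ ∀ T Z : ℝ, 0 < T → 0 < Z →
  |AA * T ^ (2 / 3 : ℝ) - Ar T Z| ≤ C * T ^ (2 / 3 + 1 / 24 : ℝ) * Z ^ (-(1 / 8) : ℝ)

/-- BET: the area is `B (1/3, 1/3) / 2`.  (Coordinates `(s, t) ↦ (s, s t)`: area
`∫_0^∞ (t (1 + t)) ^ (-2/3) / 2 dt`, Beta integral.) -/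
def S_BET : Prop := AA = Real.Gamma (1 / 3) ^ 2 / (2 * Real.Gamma (2 / 3))

/-! ## Part D: sieve -/

/-- GCM: the gcd is removed by Moebius: `a = e a'`, `b = e b'`; `k ∣ e a'` iff
`k / gcd (k, e) ∣ a'` -/
def S_GCM : Prop := ∀ (T Z : ℝ) (k1 k2 k3 : ℕ), 0 ≤ Z → 0 < k1 → 0 < k2 → 0 < k3 →
  (MK T Z k1 k2 k3 : ℝ) = ∑ e ∈ Icc 1 ⌊Z⌋₊, (μ e : ℝ) *
    LC (T / (e : ℝ) ^ 3) (Z / e) (k1 / k1.gcd e) (k2 / k2.gcd e) (k3 / k3.gcd e)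

/-- KAP: Euler product of `∑ μ (e) gcd (K, e) / e ^ 2 = ∏ (1 - gcd (K, p) / p ^ 2)`
(`EulerProduct.eulerProduct_hasProd`; split off the primes dividing `K`) -/
def S_KAP : Prop := 0 < kap0 ∧ kap0 ≤ 1 ∧
  Multipliable (fun p : Nat.Primes => (1 - 1 / ((p : ℕ) : ℝ) ^ 2)) ∧
  (∀ d : ℕ, 0 < d → 0 < kap d ∧ kap d ≤ 1 / d) ∧
  ∀ K : ℕ, 0 < K → HasSum (fun e : ℕ => (μ e : ℝ) * (K.gcd e : ℝ) / (e : ℝ) ^ 2) (K * kap K)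

/-- SIV: from GCM, LTR, SCA, KAP: each `e ≤ Z` has the main term
`Ar T Z / e ^ 2 / (k1 k2 k3) * gcd (k1 k2 k3, e)` and the error `2 Z / e`; the tail `e > Z` of the
series of KAP costs `Z ^ 2 / ⌊Z⌋ ≤ 2 Z` -/
def S_SIV : Prop := ∀ (T Z : ℝ) (k1 k2 k3 : ℕ), 0 ≤ T → 1 ≤ Z → 0 < k1 → 0 < k2 → 0 < k3 →
  k1.Coprime k2 → k1.Coprime k3 → k2.Coprime k3 →
  |(MK T Z k1 k2 k3 : ℝ) - kap (k1 * k2 * k3) * Ar T Z| ≤ 4 * Z * (1 + Real.log Z)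

/-- FAC: `a`, `b`, `a + b` are coprime in pairs, so `d ∣ a b (a + b)` iff `k1 ∣ a`, `k2 ∣ b`,
`k3 ∣ a + b` for exactly one of the `3 ^ ω (d)` factorizations `d = k1 k2 k3` in coprime factors
(assign one coordinate to each prime factor of `d`) -/
def S_FAC : Prop := ∀ d : ℕ, 0 < d → ∃ I : Finset (ℕ × ℕ × ℕ), I.card = 3 ^ om d ∧
  (∀ k ∈ I, k.1 * k.2.1 * k.2.2 = d ∧ k.1.Coprime k.2.1 ∧ k.1.Coprime k.2.2 ∧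
    k.2.1.Coprime k.2.2) ∧
  ∀ T Z : ℝ, MM T Z d = ∑ k ∈ I, MK T Z k.1 k.2.1 k.2.2

/-- CNT: from FAC and SIV -/
def S_CNT : Prop := ∀ (T Z : ℝ) (d : ℕ), 0 ≤ T → 1 ≤ Z → 0 < d →
  |(MM T Z d : ℝ) - 3 ^ om d * kap d * Ar T Z| ≤ 3 ^ om d * (4 * Z * (1 + Real.log Z))

/-! ## Part E: the constants -/

/-- EUL: the singular series as an Euler product.  (`cf = kap0 * f`, `f` multiplicative, `f p = 0`,
`f (p ^ (e + 2)) = 3 p ^ (-(e + 2)) (1 + 1 / p)⁻¹ (p ^ (2 (e + 1) / 3) - p ^ (2 e / 3))`; with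
`q = p ^ (-1 / 3)` the local sum is `1 + 3 q ^ 4 (1 + q) / (1 + q ^ 3)`, times `1 - q ^ 6` this is
`Lp p`.  `cf d ≤ FF d`.) -/
def S_EUL : Prop := Summable cf ∧ HasProd (fun p : Nat.Primes => Lp ((p : ℕ) : ℝ)) SS ∧ 0 < SS

/-- GGB: the distribution function.  (`|hA lam d| ≤ 2 ^ ω (d) AA exc d ^ (2 / 3)`, and
`≤ 2 ^ ω (d) lam ^ 2`; `|hA lam d - AA HH d| ≤ 2 ^ ω (d) C exc d ^ (17 / 24) lam ^ (-1 / 8)`.) -/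
def S_GGB : Prop := ∃ C : ℝ, 1 ≤ C ∧ ∀ lam : ℝ, 0 < lam → Summable (cg lam) ∧
  |GG lam| ≤ C * lam ^ 2 ∧ |GG lam - AA * SS| ≤ C * lam ^ (-(1 / 8) : ℝ) ∧
  ∀ Y : ℝ, 1 ≤ Y → |GG lam - ∑ d ∈ sf Y, cg lam d| ≤ C * Y ^ (-(1 / 24) : ℝ)

/-! ## Part F: assembly -/

/-- MAG: from CNT, SCA (`Ar (X E) Z = X ^ (2 / 3) Ar E (Z / X ^ (1 / 3))`), GGB;
`∑_{d ≤ Y} 6 ^ ω (d) ≤ Y ^ 4` -/
def S_MAG : Prop := ∃ C : ℝ, 1 ≤ C ∧ ∀ X Z Y : ℝ, 1 ≤ X → 1 ≤ Z → 1 ≤ Y →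
  |(∑ d ∈ sf Y, ∑ j ∈ d.divisors, (μ (d / j) : ℝ) * MM (X * exc j) Z d) -
    X ^ (2 / 3 : ℝ) * GG (Z / X ^ (1 / 3 : ℝ))| ≤
    C * (X ^ (2 / 3 : ℝ) * Y ^ (-(1 / 24) : ℝ) + Y ^ 4 * Z * (1 + Real.log Z))

/-- NZX: from TRN (`ε = 1 / 10000`), MAG with `Y = X ^ (1 / 20)` -/
def S_NZX : Prop := ∃ c C : ℝ, 0 < c ∧ 1 ≤ C ∧ ∀ X Z : ℝ, 1 ≤ X → 1 ≤ Z →
  Z ≤ X ^ (1 / 3 + 1 / 10000 : ℝ) →
  |(((box Z).filter (fun v => ((rad (nn v) : ℕ) : ℝ) ≤ X)).card : ℝ) -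
    X ^ (2 / 3 : ℝ) * GG (Z / X ^ (1 / 3 : ℝ))| ≤ C * X ^ (2 / 3 - c)

/-- FIN: from NZX, GGB and `Pool.MED.S_TOF` (`ε = 1 / 10000`; finiteness: the finite subsets have
bounded cardinality) -/
def S_FIN : Prop := ∃ c C : ℝ, 0 < c ∧ 1 ≤ C ∧ ∀ X : ℝ, 1 ≤ X →
  (Pool.VIO.Tri X).Finite ∧
  |((Pool.VIO.Tri X).ncard : ℝ) - AA * SS * X ^ (2 / 3 : ℝ)| ≤ C * X ^ (2 / 3 - c) ∧
  ∀ lam : ℝ, 0 < lam →
    |(({t | t ∈ Pool.VIO.Tri X ∧ ((t.1 + t.2 : ℕ) : ℝ) ≤ lam * X ^ (1 / 3 : ℝ)} :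
        Set (ℕ × ℕ)).ncard : ℝ) - GG lam * X ^ (2 / 3 : ℝ)| ≤ C * X ^ (2 / 3 - c)

end Pool.ASY
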