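import Pool.Agent.H21.ASY.Stmts

/-!
# ASY, supplement: the sharp tail of the height (remark of helper85)

`|GG lam - AA SS| ≤ C lam ^ (-θ)` for every `θ < 1`.
-/

set_option autoImplicit false

namespace Pool.ASY

open Finset MeasureTheory Pool.Agent.H98.ABCR Pool.SHA
open scoped ArithmeticFunction.Moebius

/-- SUT: as SUM, from MUL and EXC: at `p ^ e`, `e ≥ 2`, the term is
`6 p ^ (-(2 / 3 + θ / 3) - e (1 - θ) / 3)`, at most `6 p ^ (-(4 - θ) / 3)` for `e = 2` -/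
def S_SUT : Prop := ∀ θ : ℝ, 0 ≤ θ → θ < 1 → ∃ C : ℝ, 1 ≤ C ∧
  ∀ S : Finset ℕ, (∀ d ∈ S, Sqf d) →
    ∑ d ∈ S, 6 ^ om d * (exc d : ℝ) ^ (2 / 3 + θ / 3 : ℝ) / d ≤ C

/-- CUT: from CUS, `min (x, y) ≤ x ^ θ y ^ (1 - θ)`, `x = 4 T / Z`, `y = AA T ^ (2 / 3)` -/
def S_CUT : Prop := ∀ θ : ℝ, 0 ≤ θ → θ ≤ 1 → ∃ C : ℝ, 1 ≤ C ∧ ∀ T Z : ℝ, 0 < T → 0 < Z →
  |AA * T ^ (2 / 3 : ℝ) - Ar T Z| ≤ C * T ^ (2 / 3 + θ / 3 : ℝ) * Z ^ (-θ)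

/-- GGT: from SUT, CUT, KAP, EXC, GGB, EUL (summability): termwise
`|cg lam d - AA cf d| ≤ 3 ^ ω (d) / d * 2 ^ ω (d) * C exc d ^ (2 / 3 + θ / 3) lam ^ (-θ)` -/
def S_GGT : Prop := ∀ θ : ℝ, 0 ≤ θ → θ < 1 → ∃ C : ℝ, 1 ≤ C ∧ ∀ lam : ℝ, 0 < lam →
  |GG lam - AA * SS| ≤ C * lam ^ (-θ)

end Pool.ASY
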